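import Pool.Agent.MP_93267c_al.Defs

-- part MP_93267c_al.Group
section

/-!
Subgroups of metacyclic groups with coprime kernel and complement.
-/

open scoped Pointwise

namespace Pool.Agent.MP_93267c_al

structure Setup {G : Type} [Group G] (m n : ℕ) (r : ℤ) (a b : G) : Prop where
  hm : 0 < m
  hn : 0 < n
  cop : Nat.Coprime m n
  hr : (m : ℤ) ∣ r ^ n - 1
  ha : ∀ i : ℤ, a ^ i = 1 ↔ (m : ℤ) ∣ i
  hb : b ^ n = 1
  conj : b⁻¹ * a * b = a ^ r
  uniq : ∀ (j j' : ℕ) (i i' : ℤ), b ^ j * a ^ i = b ^ j' * a ^ i' → j ≡ j' [MOD n]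
  gen : ∀ g, ∃ j : ℕ, ∃ i : ℤ, g = b ^ j * a ^ i

theorem dvd_of_dvd_eq {d x y : ℤ} (h : d ∣ x) (e : x = y) : d ∣ y := e ▸ h

theorem comm_aux {G : Type} [Group G] {a b : G} {r : ℤ} (h : b⁻¹ * a * b = a ^ r) (i : ℤ) (j : ℕ) :
    a ^ i * b ^ j = b ^ j * a ^ (i * r ^ j) := by
  have h1 : ∀ i : ℤ, a ^ i * b = b * a ^ (i * r) := by
    intro i
    have : b⁻¹ * a ^ i * b = a ^ (i * r) := by
      have h2 := conj_zpow (i := i) (a := b⁻¹) (b := a)
      rw [inv_inv, h] at h2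
      rw [← h2, ← zpow_mul, mul_comm]
    rw [← this]; group
  induction j generalizing i with
  | zero => simp
  | succ j ih => rw [pow_succ, ← mul_assoc, ih, mul_assoc, h1, ← mul_assoc, pow_succ, mul_assoc i]

variable {G : Type} [Group G] {m n : ℕ} {r : ℤ} {a b : G}

namespace Setup

variable (S : Setup m n r a b)
include S

theorem mul_nf (j j' : ℕ) (i i' : ℤ) :
    b ^ j * a ^ i * (b ^ j' * a ^ i') = b ^ (j + j') * a ^ (i * r ^ j' + i') := by
  rw [mul_assoc, ← mul_assoc (a ^ i), comm_aux S.conj, pow_add, zpow_add]; group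

theorem rpow_mod {j j' : ℕ} (h : j ≡ j' [MOD n]) : (m : ℤ) ∣ r ^ j - r ^ j' := by
  wlog hj : j' ≤ j generalizing j j'
  · exact dvd_sub_comm.1 (this h.symm (by omega))
  obtain ⟨k, hk⟩ := (Nat.modEq_iff_dvd' hj).1 h.symm
  have : j = j' + n * k := by omega
  rw [this, pow_add, pow_mul, ← mul_sub_one]
  exact Dvd.dvd.mul_left (S.hr.trans (by simpa using sub_dvd_pow_sub_pow (r ^ n) 1 k)) _

theorem bpow_mod {j j' : ℕ} (h : j ≡ j' [MOD n]) : b ^ j = b ^ j' :=
  pow_eq_pow_of_modEq h S.hb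

theorem nf_eq_iff {j j' : ℕ} {i i' : ℤ} :
    b ^ j * a ^ i = b ^ j' * a ^ i' ↔ j ≡ j' [MOD n] ∧ (m : ℤ) ∣ i - i' := by
  constructor
  · intro h
    have h1 := S.uniq _ _ _ _ h
    rw [S.bpow_mod h1, mul_right_inj] at h
    exact ⟨h1, (S.ha _).1 (by rw [zpow_sub, h, mul_inv_cancel])⟩
  · rintro ⟨h1, h2⟩
    rw [S.bpow_mod h1, mul_right_inj]
    have := (S.ha _).2 h2
    rwa [zpow_sub, mul_inv_eq_one] at this

theorem pow_nf (e : ℕ) (s : ℤ) (k : ℕ) :
    (b ^ e * a ^ s) ^ k = b ^ (e * k) * a ^ (s * ∑ i ∈ Finset.range k, r ^ (e * i)) := by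
  induction k with
  | zero => simp
  | succ k ih =>
    rw [pow_succ', ih, S.mul_nf, Finset.sum_range_succ]
    congr 2 <;> ring

end Setup

/-- the subgroup with parameters `(d,e,t)` -/
def KK (r : ℤ) (a b : G) (d e : ℕ) (t : ℤ) : Subgroup G :=
  Subgroup.closure {a ^ (d : ℤ), b ^ e * a ^ (t * (1 - r ^ e))}

namespace Setup

variable (S : Setup m n r a b)
include S

theorem mem_KK_of {d e : ℕ} {t : ℤ} {j : ℕ} {i : ℤ} (h1 : e ∣ j)
    (h2 : (d : ℤ) ∣ i - t * (1 - r ^ j)) : b ^ j * a ^ i ∈ KK r a b d e t := by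
  obtain ⟨k, rfl⟩ := h1
  obtain ⟨c, hc⟩ := h2
  have e1 : b ^ (e * k) * a ^ i = (b ^ e * a ^ (t * (1 - r ^ e))) ^ k * (a ^ (d : ℤ)) ^ c := by
    rw [S.pow_nf, mul_assoc (b ^ (e * k)), ← zpow_mul, ← zpow_add]
    congr 2
    have := mul_neg_geom_sum (r ^ e) k
    simp only [← pow_mul] at this
    rw [mul_assoc, this]
    linarith
  rw [e1]
  exact mul_mem (pow_mem (Subgroup.subset_closure (by simp)) _)
    (zpow_mem (Subgroup.subset_closure (by simp)) _)

theorem mem_KK {d e : ℕ} (hd : d ∣ m) (he : e ∣ n) {t : ℤ} {j : ℕ} {i : ℤ} :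
    b ^ j * a ^ i ∈ KK r a b d e t ↔ e ∣ j ∧ (d : ℤ) ∣ i - t * (1 - r ^ j) := by
  have hd' : (d : ℤ) ∣ m := Int.natCast_dvd_natCast.2 hd
  refine ⟨fun h => ?_, fun h => S.mem_KK_of h.1 h.2⟩
  let M : Subgroup G :=
    { carrier := {g | ∃ j : ℕ, ∃ i : ℤ, g = b ^ j * a ^ i ∧ e ∣ j ∧ (d : ℤ) ∣ i - t * (1 - r ^ j)}
      one_mem' := ⟨0, 0, by simp⟩
      mul_mem' := by
        rintro _ _ ⟨j, i, rfl, h1, h2⟩ ⟨j', i', rfl, h1', h2'⟩
        refine ⟨_, _, S.mul_nf .., dvd_add h1 h1', ?_⟩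
        have := dvd_add (h2.mul_right (r ^ j')) h2'
        exact dvd_of_dvd_eq this (by ring)
      inv_mem' := by
        rintro _ ⟨j, i, rfl, h1, h2⟩
        obtain ⟨k, hk⟩ : ∃ k, n = k + 1 := ⟨n - 1, by have := S.hn; omega⟩
        have hjk : j + k * j ≡ 0 [MOD n] :=
          (Nat.modEq_zero_iff_dvd).2 ⟨j, by rw [hk]; ring⟩
        refine ⟨k * j, -(i * r ^ (k * j)), ?_, h1.mul_left _, ?_⟩
        · rw [inv_eq_iff_mul_eq_one, S.mul_nf, S.bpow_mod hjk]; simp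
        · have := dvd_add ((h2.mul_right (r ^ (k * j))).neg_right)
            ((hd'.trans (S.rpow_mod hjk)).mul_left t)
          exact dvd_of_dvd_eq this (by ring) }
  have hle : KK r a b d e t ≤ M := by
    rw [KK, Subgroup.closure_le]
    rintro _ (rfl | rfl)
    · exact ⟨0, d, by simp⟩
    · exact ⟨e, _, rfl, dvd_rfl, by simp⟩
  obtain ⟨j', i', h0, h1, h2⟩ := hle h
  obtain ⟨h3, h4⟩ := S.nf_eq_iff.1 h0
  refine ⟨(Nat.modEq_zero_iff_dvd).1 ((h3.of_dvd he).trans ((Nat.modEq_zero_iff_dvd).2 h1)), ?_⟩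
  have := dvd_add (dvd_add h2 (hd'.trans h4)) ((hd'.trans (S.rpow_mod h3)).mul_left t)
  exact dvd_of_dvd_eq this (by ring)

theorem KK_le_iff {d e d' e' : ℕ} (hd' : d' ∣ m) (he' : e' ∣ n) {t t' : ℤ} :
    KK r a b d e t ≤ KK r a b d' e' t' ↔
      d' ∣ d ∧ e' ∣ e ∧ (d' : ℤ) ∣ (t - t') * (1 - r ^ e) := by
  rw [KK, Subgroup.closure_le, Set.insert_subset_iff, Set.singleton_subset_iff]
  have h1 : a ^ (d : ℤ) = b ^ 0 * a ^ (d : ℤ) := by simp
  rw [SetLike.mem_coe, SetLike.mem_coe, h1, S.mem_KK hd' he', S.mem_KK hd' he', sub_mul]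
  simp [Int.natCast_dvd_natCast]

/-- solving for the conjugating parameter -/
theorem exists_t {d e : ℕ} (hd : d ∣ m) (he : e ∣ n) {s : ℤ}
    (h : (d : ℤ) ∣ s * ∑ i ∈ Finset.range (n / e), r ^ (e * i)) :
    ∃ t : ℤ, (d : ℤ) ∣ s - t * (1 - r ^ e) := by
  set u : ℕ := Int.gcd d (1 - r ^ e) with hu
  have hud : (u : ℤ) ∣ d := Int.gcd_dvd_left ..
  have huc : (u : ℤ) ∣ 1 - r ^ e := Int.gcd_dvd_right ..
  have h1 : (u : ℤ) ∣ ((n / e : ℕ) : ℤ) - ∑ i ∈ Finset.range (n / e), r ^ (e * i) := by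
    have : ((n / e : ℕ) : ℤ) = ∑ i ∈ Finset.range (n / e), (1 : ℤ) := by simp
    rw [this, ← Finset.sum_sub_distrib]
    refine Finset.dvd_sum fun i _ => huc.trans ?_
    rw [pow_mul]
    simpa using sub_dvd_pow_sub_pow 1 (r ^ e) i
  have h2 : (u : ℤ) ∣ s * ((n / e : ℕ) : ℤ) := by
    have := dvd_add (hud.trans h) (h1.mul_left s)
    exact dvd_of_dvd_eq this (by ring)
  have h3 : IsCoprime (u : ℤ) ((n / e : ℕ) : ℤ) := by
    rw [Nat.isCoprime_iff_coprime]
    exact (S.cop.coprime_dvd_left ((Int.natCast_dvd_natCast.1 hud).trans hd)).coprime_dvd_right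
      (Nat.div_dvd_of_dvd he)
  obtain ⟨c, hc⟩ := h3.dvd_of_dvd_mul_right h2
  have hb := Int.gcd_eq_gcd_ab (d : ℤ) (1 - r ^ e)
  refine ⟨Int.gcdB d (1 - r ^ e) * c, Int.gcdA d (1 - r ^ e) * c, ?_⟩
  rw [hc, hu, hb]
  ring

omit S in
theorem exists_gen (P : ℕ → Prop) {N : ℕ} (hN : 0 < N) (hPN : P N)
    (hsub : ∀ x y, P x → P y → y ≤ x → P (x - y)) :
    ∃ d, d ∣ N ∧ P d ∧ ∀ x, P x → d ∣ x := by
  classical
  have hex : ∃ d, 0 < d ∧ P d := ⟨N, hN, hPN⟩
  have key : ∀ x, P x → Nat.find hex ∣ x := by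
    intro x
    induction x using Nat.strong_induction_on with
    | _ x ih =>
      intro hx
      rcases Nat.eq_zero_or_pos x with rfl | h0
      · simp
      · have hle : Nat.find hex ≤ x := Nat.find_min' hex ⟨h0, hx⟩
        have := ih (x - Nat.find hex) (by have := (Nat.find_spec hex).1; omega)
          (hsub _ _ hx (Nat.find_spec hex).2 hle)
        exact (Nat.dvd_sub_iff_left hle dvd_rfl).1 this
  exact ⟨_, key N hPN, (Nat.find_spec hex).2, key⟩

theorem exists_eq_KK (M : Subgroup G) : ∃ d e t, d ∣ m ∧ e ∣ n ∧ M = KK r a b d e t := by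
  obtain ⟨d, hd, hdM, hdall⟩ := exists_gen (fun x : ℕ => a ^ (x : ℤ) ∈ M) S.hm
    (by rw [(S.ha _).2 dvd_rfl]; exact one_mem _)
    (fun x y hx hy hxy => by
      rw [Nat.cast_sub hxy, zpow_sub]; exact mul_mem hx (inv_mem hy))
  have hdall' : ∀ i : ℤ, a ^ i ∈ M → (d : ℤ) ∣ i := by
    intro i hi
    rw [← Int.dvd_natAbs, Int.natCast_dvd_natCast]
    apply hdall
    rcases Int.natAbs_eq i with h | h
    · rwa [← h]
    · have : ((i.natAbs : ℕ) : ℤ) = -i := by omega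
      rw [this, zpow_neg]; exact inv_mem hi
  obtain ⟨e, he, ⟨s, hs⟩, heall⟩ := exists_gen (fun x : ℕ => ∃ i : ℤ, b ^ x * a ^ i ∈ M) S.hn
    ⟨0, by simp [S.hb]⟩
    (fun x y ⟨i, hi⟩ ⟨i', hi'⟩ hxy => by
      obtain ⟨z, rfl⟩ := Nat.exists_eq_add_of_le hxy
      refine ⟨i - i' * r ^ z, ?_⟩
      have : b ^ (y + z - y) * a ^ (i - i' * r ^ z) =
          (b ^ y * a ^ i')⁻¹ * (b ^ (y + z) * a ^ i) := by
        rw [eq_inv_mul_iff_mul_eq, Nat.add_sub_cancel_left, S.mul_nf]; simp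
      rw [this]; exact mul_mem (inv_mem hi') hi)
  have h1 : (d : ℤ) ∣ s * ∑ i ∈ Finset.range (n / e), r ^ (e * i) := by
    apply hdall'
    have := pow_mem hs (n / e)
    rwa [S.pow_nf, Nat.mul_div_cancel' he, S.hb, one_mul] at this
  obtain ⟨t, c, hc⟩ := S.exists_t hd he h1
  have hle : KK r a b d e t ≤ M := by
    rw [KK, Subgroup.closure_le]
    rintro _ (rfl | rfl)
    · exact hdM
    · have : b ^ e * a ^ (t * (1 - r ^ e)) = b ^ e * a ^ s * ((a ^ (d : ℤ)) ^ c)⁻¹ := by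
        rw [← zpow_mul, mul_assoc, ← zpow_sub, ← hc]; simp
      rw [SetLike.mem_coe, this]
      exact mul_mem hs (inv_mem (zpow_mem hdM c))
  refine ⟨d, e, t, hd, he, le_antisymm (fun g hg => ?_) hle⟩
  obtain ⟨j, i, rfl⟩ := S.gen g
  have hej := heall j ⟨i, hg⟩
  refine S.mem_KK_of hej (hdall' _ ?_)
  have h2 : b ^ j * a ^ (t * (1 - r ^ j)) ∈ M := hle (S.mem_KK_of hej (by simp))
  have := mul_mem (inv_mem h2) hg
  rwa [mul_inv_rev, mul_assoc, inv_mul_cancel_left, ← zpow_neg, ← zpow_add, neg_add_eq_sub] at this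

end Setup

end Pool.Agent.MP_93267c_al

end

-- part MP_93267c_al.Perm
section

/-!
Criterion for two subgroups to permute.
-/

open scoped Pointwise

namespace Pool.Agent.MP_93267c_al

variable {G : Type} [Group G] {m n : ℕ} {r : ℤ} {a b : G}

theorem one_sub_pow_dvd (r : ℤ) {e j : ℕ} (h : e ∣ j) : 1 - r ^ e ∣ 1 - r ^ j := by
  obtain ⟨k, rfl⟩ := h
  rw [pow_mul]
  simpa using sub_dvd_pow_sub_pow 1 (r ^ e) k

namespace Setup

variable (S : Setup m n r a b)
include S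

theorem rpow_inv (j : ℕ) : ∃ w : ℤ, (m : ℤ) ∣ w * r ^ j - 1 := by
  obtain ⟨k, hk⟩ : ∃ k, n = k + 1 := ⟨n - 1, by have := S.hn; omega⟩
  have hjk : k * j + j ≡ 0 [MOD n] := (Nat.modEq_zero_iff_dvd).2 ⟨j, by rw [hk]; ring⟩
  exact ⟨r ^ (k * j), dvd_of_dvd_eq (S.rpow_mod hjk) (by ring)⟩

theorem mul_subset {d e d' e' : ℕ} (hd : d ∣ m) (he : e ∣ n) (hd' : d' ∣ m) (he' : e' ∣ n)
    {t t' : ℤ} (h : (Nat.gcd d d' : ℤ) ∣ (t - t') * ((1 - r ^ e) * (1 - r ^ e'))) :
    (KK r a b d e t : Set G) * (KK r a b d' e' t' : Set G) ⊆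
      (KK r a b d' e' t' : Set G) * (KK r a b d e t : Set G) := by
  rintro _ ⟨x, hx, x', hx', rfl⟩
  obtain ⟨j, i, rfl⟩ := S.gen x
  obtain ⟨j', i', rfl⟩ := S.gen x'
  obtain ⟨h1, α, hα⟩ := (S.mem_KK hd he).1 hx
  obtain ⟨h1', β, hβ⟩ := (S.mem_KK hd' he').1 hx'
  obtain ⟨γ, hγ⟩ : (Nat.gcd d d' : ℤ) ∣ (t - t') * ((1 - r ^ j) * (1 - r ^ j')) :=
    h.trans (mul_dvd_mul_left _ (mul_dvd_mul (one_sub_pow_dvd r h1) (one_sub_pow_dvd r h1')))
  rw [Nat.gcd_eq_gcd_ab] at hγ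
  obtain ⟨w, hw⟩ := S.rpow_inv j
  obtain ⟨c, hc⟩ := (Int.natCast_dvd_natCast.2 hd).trans hw
  set B := Nat.gcdB d d'
  set A := Nat.gcdA d d'
  let k' := t' * (1 - r ^ j') + d' * ((β - B * γ) * w)
  refine ⟨b ^ j' * a ^ k', S.mem_KK_of h1' ⟨(β - B * γ) * w, by simp [k']⟩,
    b ^ j * a ^ (i * r ^ j' + i' - k' * r ^ j), S.mem_KK_of h1 ?_, ?_⟩
  · refine ⟨α * r ^ j' - A * γ - d' * (β - B * γ) * c, ?_⟩
    have e1 : i = t * (1 - r ^ j) + d * α := by linarith
    have e2 : i' = t' * (1 - r ^ j') + d' * β := by linarith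
    have e3 : w * r ^ j = 1 + d * c := by linarith
    simp only [k']
    rw [e1, e2]
    linear_combination (-1 : ℤ) * hγ - (d' * (β - B * γ)) * e3
  · simp only
    rw [S.mul_nf, S.mul_nf, add_comm j' j]
    congr 2
    ring

theorem perm_iff {d e d' e' : ℕ} (hd : d ∣ m) (he : e ∣ n) (hd' : d' ∣ m) (he' : e' ∣ n)
    {t t' : ℤ} :
    (KK r a b d e t : Set G) * (KK r a b d' e' t' : Set G) =
      (KK r a b d' e' t' : Set G) * (KK r a b d e t : Set G) ↔
    (Nat.gcd d d' : ℤ) ∣ (t - t') * ((1 - r ^ e) * (1 - r ^ e')) := by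
  constructor
  swap
  · intro h
    refine Set.Subset.antisymm (S.mul_subset hd he hd' he' h) (S.mul_subset hd' he' hd he ?_)
    rw [Nat.gcd_comm]
    exact dvd_of_dvd_eq h.neg_right (by ring)
  intro h
  set K := KK r a b d e t with hK
  set K' := KK r a b d' e' t' with hK'
  let M : Subgroup G :=
    { carrier := (K : Set G) * (K' : Set G)
      one_mem' := ⟨1, one_mem _, 1, one_mem _, by simp⟩
      mul_mem' := by
        intro x y hx hy
        have h1 : (K : Set G) * K' * (K * K') = K * K' := by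
          rw [mul_assoc, ← mul_assoc (K' : Set G), ← h, ← mul_assoc, ← mul_assoc, coe_mul_coe,
            mul_assoc, coe_mul_coe]
        rw [← h1]
        exact Set.mul_mem_mul hx hy
      inv_mem' := by
        rintro _ ⟨x, hx, y, hy, rfl⟩
        rw [h]
        exact ⟨y⁻¹, inv_mem hy, x⁻¹, inv_mem hx, by simp⟩ }
  obtain ⟨d'', e'', y, hd'', he'', hM⟩ := S.exists_eq_KK M
  have hle : K ≤ M := fun x hx => ⟨x, hx, 1, one_mem _, by simp⟩
  have hle' : K' ≤ M := fun x hx => ⟨1, one_mem _, x, hx, by simp⟩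
  rw [hM] at hle hle'
  obtain ⟨-, -, h1⟩ := (S.KK_le_iff hd'' he'').1 hle
  obtain ⟨-, -, h2⟩ := (S.KK_le_iff hd'' he'').1 hle'
  set g : ℕ := Nat.gcd d d' with hg
  have hgd : (g : ℤ) ∣ d := Int.natCast_dvd_natCast.2 (Nat.gcd_dvd_left _ _)
  have hgd' : (g : ℤ) ∣ d' := Int.natCast_dvd_natCast.2 (Nat.gcd_dvd_right _ _)
  have hgm : (g : ℤ) ∣ m := hgd.trans (Int.natCast_dvd_natCast.2 hd)
  have key : ∀ i : ℤ, (d'' : ℤ) ∣ i →
      ∃ j, e ∣ j ∧ e' ∣ j ∧ (g : ℤ) ∣ i - (t - t') * (r ^ j - 1) := by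
    intro i hi
    have : b ^ 0 * a ^ i ∈ M := by rw [hM]; exact S.mem_KK_of (dvd_zero _) (by simpa using hi)
    obtain ⟨x, hx, x', hx', hxx⟩ := this
    obtain ⟨j, k, rfl⟩ := S.gen x
    obtain ⟨j', k', rfl⟩ := S.gen x'
    obtain ⟨h3, h4⟩ := (S.mem_KK hd he).1 hx
    obtain ⟨h3', h4'⟩ := (S.mem_KK hd' he').1 hx'
    simp only at hxx
    rw [S.mul_nf, S.nf_eq_iff] at hxx
    refine ⟨j', ?_, h3', ?_⟩
    · exact (Nat.dvd_add_right h3).1 (he.trans ((Nat.modEq_zero_iff_dvd).1 hxx.1))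
    · have := dvd_sub (dvd_sub (dvd_add ((hgd.trans h4).mul_right (r ^ j')) (hgd'.trans h4'))
        (hgm.trans hxx.2)) ((hgm.trans (S.rpow_mod hxx.1)).mul_left t)
      exact dvd_of_dvd_eq this (by ring)
  have key2 : ∀ j, e ∣ j → e' ∣ j → (g : ℤ) ∣ (t - t') * (r ^ j - 1) := by
    intro j hj hj'
    have h3 : ∀ k, (d'' : ℤ) ∣ (t - t') * ((r ^ j) ^ k - 1) := by
      intro k
      have := dvd_sub
        (h2.trans (mul_dvd_mul_left _ (one_sub_pow_dvd r (hj'.mul_right k))))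
        (h1.trans (mul_dvd_mul_left _ (one_sub_pow_dvd r (hj.mul_right k))))
      exact dvd_of_dvd_eq this (by rw [pow_mul]; ring)
    have h4 : (d'' : ℤ) ∣ (t - t') * (∑ k ∈ Finset.range n, (r ^ j) ^ k - n) := by
      have : (t - t') * (∑ k ∈ Finset.range n, (r ^ j) ^ k - n) =
          ∑ k ∈ Finset.range n, (t - t') * ((r ^ j) ^ k - 1) := by
        rw [← Finset.mul_sum, Finset.sum_sub_distrib]; simp
      rw [this]
      exact Finset.dvd_sum fun k _ => h3 k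
    obtain ⟨u, ν, huv⟩ : IsCoprime (m : ℤ) (n : ℤ) := Nat.isCoprime_iff_coprime.2 S.cop
    obtain ⟨j', -, -, h5⟩ := key _ (h4.mul_left ν)
    obtain ⟨w, hw⟩ := S.rpow_inv j'
    have h6 : (m : ℤ) ∣ (∑ k ∈ Finset.range n, (r ^ j) ^ k) * (r ^ j - 1) := by
      rw [geom_sum_mul, ← pow_mul]
      simpa using S.rpow_mod (j := j * n) (j' := 0) ((Nat.modEq_zero_iff_dvd).2 (by simp))
    set T := ∑ k ∈ Finset.range n, (r ^ j) ^ k
    have := dvd_sub (dvd_add (dvd_sub ((hgm.trans h6).mul_left (w * ν * (t - t')))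
      (h5.mul_left (w * (r ^ j - 1)))) (hgm.mul_left (w * (r ^ j - 1) * (t - t') * u)))
      ((hgm.trans hw).mul_left ((t - t') * (r ^ j - 1)))
    refine dvd_of_dvd_eq this ?_
    linear_combination (w * (r ^ j - 1) * (t - t')) * huv
  obtain ⟨j, hj, hj', h3⟩ := key d'' dvd_rfl
  have h4 : (g : ℤ) ∣ d'' := dvd_of_dvd_eq (dvd_add h3 (key2 j hj hj')) (by ring)
  refine h4.trans ?_
  exact dvd_of_dvd_eq (dvd_sub (h1.mul_right (1 - r ^ e')) (h2.mul_right (1 - r ^ e))) (by ring)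

end Setup

end Pool.Agent.MP_93267c_al

end

-- part MP_93267c_al.Arith
section

/-!
Arithmetic lemmas: sums over divisors as products over primes, local factors.
-/

open Finset

namespace Pool.Agent.MP_93267c_al

theorem prod_pow_fact {m d : ℕ} (hm : m ≠ 0) (hd : d ∣ m) :
    ∏ p ∈ m.primeFactors, p ^ d.factorization p = d := by
  have hd0 : d ≠ 0 := ne_zero_of_dvd_ne_zero hm hd
  conv_rhs => rw [← Nat.prod_factorization_pow_eq_self hd0]
  rw [Finsupp.prod_of_support_subset _ (s := m.primeFactors)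
    (by simpa using Nat.primeFactors_mono hd hm) _ (by simp)]

theorem fact_prod_pow {m : ℕ} (x : ℕ → ℕ) {q : ℕ} (hq : q ∈ m.primeFactors) :
    (∏ p ∈ m.primeFactors, p ^ x p).factorization q = x q := by
  rw [Nat.factorization_prod fun p hp => pow_ne_zero _ (Nat.prime_of_mem_primeFactors hp).ne_zero,
    Finsupp.finsetSum_apply, sum_eq_single q]
  · simp [(Nat.prime_of_mem_primeFactors hq).factorization]
  · intro p hp hne
    simp [(Nat.prime_of_mem_primeFactors hp).factorization, Finsupp.single_apply, hne]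
  · intro h; exact absurd hq h

theorem sum_divisors_prod {m : ℕ} (hm : m ≠ 0) (φ : ℕ → ℕ → ℚ) :
    ∑ d ∈ m.divisors, ∏ p ∈ m.primeFactors, φ p (d.factorization p) =
      ∏ p ∈ m.primeFactors, ∑ i ∈ range (m.factorization p + 1), φ p i := by
  rw [prod_sum]
  refine sum_bij' (fun d _ => fun p _ => d.factorization p)
    (fun x _ => ∏ p ∈ m.primeFactors, p ^ (if h : p ∈ m.primeFactors then x p h else 0))
    ?_ ?_ ?_ ?_ ?_
  · intro d hd
    rw [mem_pi]
    intro p _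
    exact mem_range.2 (Nat.lt_succ_of_le
      ((Nat.factorization_le_iff_dvd (Nat.pos_of_mem_divisors hd).ne' hm).2
        (Nat.dvd_of_mem_divisors hd) p))
  · intro x hx
    rw [mem_pi] at hx
    refine Nat.mem_divisors.2 ⟨?_, hm⟩
    conv_rhs => rw [← prod_pow_fact hm dvd_rfl]
    refine prod_dvd_prod_of_dvd _ _ fun p hp => pow_dvd_pow _ ?_
    rw [dif_pos hp]
    exact Nat.lt_succ_iff.1 (mem_range.1 (hx p hp))
  · intro d hd
    conv_rhs => rw [← prod_pow_fact hm (Nat.dvd_of_mem_divisors hd)]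
    exact prod_congr rfl fun p hp => by rw [dif_pos hp]
  · intro x _
    funext p hp
    rw [fact_prod_pow _ hp, dif_pos hp]
  · intro d _
    exact (prod_attach m.primeFactors fun p => φ p (d.factorization p)).symm

/-- the part of `d` coprime to `c` -/
def mu (m : ℕ) (c : ℤ) (d : ℕ) : ℕ :=
  ∏ p ∈ m.primeFactors, if (p : ℤ) ∣ c then 1 else p ^ d.factorization p

/-- `c` is divisible by the full power of each prime of `m` dividing it -/
def Uni (m : ℕ) (c : ℤ) : Prop :=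
  ∀ p ∈ m.primeFactors, (p : ℤ) ∣ c → (p : ℤ) ^ m.factorization p ∣ c

theorem mu_pos (m : ℕ) (c : ℤ) (d : ℕ) : 0 < mu m c d :=
  prod_pos fun p hp => by
    split_ifs
    · exact one_pos
    · exact pow_pos (Nat.prime_of_mem_primeFactors hp).pos _

theorem dvd_iff_mu {m d : ℕ} (hm : m ≠ 0) (hd : d ∣ m) {c : ℤ} (hc : Uni m c) (x : ℤ) :
    (d : ℤ) ∣ x * c ↔ (mu m c d : ℤ) ∣ x := by
  set κ : ℕ := ∏ p ∈ m.primeFactors, if (p : ℤ) ∣ c then p ^ d.factorization p else 1 with hκ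
  have h1 : mu m c d * κ = d := by
    rw [mu, hκ, ← prod_mul_distrib]
    conv_rhs => rw [← prod_pow_fact hm hd]
    exact prod_congr rfl fun p _ => by split_ifs <;> simp
  have h2 : (κ : ℤ) ∣ c := by
    rw [hκ]
    push_cast
    refine prod_dvd_of_coprime (fun p hp q hq hne => ?_) fun p hp => ?_
    · have : IsCoprime (p : ℤ) (q : ℤ) := Nat.isCoprime_iff_coprime.2
        ((Nat.coprime_primes (Nat.prime_of_mem_primeFactors hp)
          (Nat.prime_of_mem_primeFactors hq)).2 hne)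
      simp only [Function.onFun]
      split_ifs
      · exact this.pow
      · exact isCoprime_one_right
      · exact isCoprime_one_left
      · exact isCoprime_one_left
    · split_ifs with h
      · exact (pow_dvd_pow _ ((Nat.factorization_le_iff_dvd (ne_zero_of_dvd_ne_zero hm hd) hm).2
          hd p)).trans (hc p hp h)
      · exact one_dvd _
  have h3 : IsCoprime (mu m c d : ℤ) c := by
    rw [mu]
    push_cast
    refine IsCoprime.prod_left fun p hp => ?_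
    split_ifs with h
    · exact isCoprime_one_left
    · exact ((Nat.prime_iff_prime_int.1 (Nat.prime_of_mem_primeFactors hp)).irreducible.coprime_iff_not_dvd.2
        h).pow_left
  constructor
  · intro h
    exact h3.dvd_of_dvd_mul_right
      ((Int.natCast_dvd_natCast.2 (Dvd.intro _ h1)).trans h)
  · intro h
    rw [← h1]
    push_cast
    exact mul_dvd_mul h h2

theorem Uni.mul {m : ℕ} {c c' : ℤ} (h : Uni m c) (h' : Uni m c') : Uni m (c * c') := by
  intro p hp hd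
  rcases (Nat.prime_iff_prime_int.1 (Nat.prime_of_mem_primeFactors hp)).dvd_or_dvd hd with h1 | h1
  · exact (h p hp h1).mul_right _
  · exact (h' p hp h1).mul_left _

theorem uni_one_sub_pow {m n e : ℕ} {r : ℤ} (cop : Nat.Coprime m n) (hr : (m : ℤ) ∣ r ^ n - 1)
    (he : e ∣ n) : Uni m (1 - r ^ e) := by
  intro p hp hd
  obtain ⟨k, rfl⟩ := he
  have hpp := Nat.prime_iff_prime_int.1 (Nat.prime_of_mem_primeFactors hp)
  have h1 : (p : ℤ) ^ m.factorization p ∣ (1 - r ^ e) * ∑ i ∈ range k, (r ^ e) ^ i := by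
    rw [mul_neg_geom_sum, ← pow_mul]
    refine dvd_sub_comm.1 (Dvd.dvd.trans ?_ hr)
    exact_mod_cast Nat.ordProj_dvd m p
  refine IsCoprime.dvd_of_dvd_mul_right (IsCoprime.pow_left ?_) h1
  refine hpp.irreducible.coprime_iff_not_dvd.2 fun h => ?_
  have h2 : (p : ℤ) ∣ (k : ℤ) - ∑ i ∈ range k, (r ^ e) ^ i := by
    have : (k : ℤ) = ∑ i ∈ range k, (1 : ℤ) := by simp
    rw [this, ← sum_sub_distrib]
    exact dvd_sum fun i _ => hd.trans (by simpa using sub_dvd_pow_sub_pow 1 (r ^ e) i)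
  have h3 : (p : ℤ) ∣ k := by simpa using dvd_add h2 h
  have h4 : p ∣ Nat.gcd m (e * k) := Nat.dvd_gcd (Nat.dvd_of_mem_primeFactors hp)
    ((Int.natCast_dvd_natCast.1 h3).mul_left e)
  rw [cop] at h4
  exact (Nat.prime_of_mem_primeFactors hp).one_lt.ne' (Nat.dvd_one.1 h4)

theorem count_mod {μ ν : ℕ} (hν : 0 < ν) (h : ν ∣ μ) (t₀ : ℤ) :
    ∑ t ∈ Ico (0 : ℤ) μ, (if (ν : ℤ) ∣ t - t₀ then (1 : ℚ) else 0) = (μ : ℚ) / ν := by
  obtain ⟨k, rfl⟩ := h
  have hν' : (ν : ℚ) ≠ 0 := by exact_mod_cast hν.ne'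
  have h1 := Int.Ico_filter_modEq_card (0 : ℤ) ((ν * k : ℕ) : ℤ) (r := ν) (by exact_mod_cast hν) t₀
  have h2 : ((((ν * k : ℕ) : ℤ) : ℚ) - t₀) / ((ν : ℤ) : ℚ) =
      (((0 : ℤ) : ℚ) - t₀) / ((ν : ℤ) : ℚ) + (k : ℤ) := by
    push_cast; field_simp; ring
  rw [h2, Int.ceil_add_intCast, add_sub_cancel_left, max_eq_left (by positivity)] at h1
  rw [sum_boole]
  have h3 : (filter (fun t => (ν : ℤ) ∣ t - t₀) (Ico (0 : ℤ) ((ν * k : ℕ) : ℤ))) =
      filter (fun x => x ≡ t₀ [ZMOD ν]) (Ico (0 : ℤ) ((ν * k : ℕ) : ℤ)) :=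
    filter_congr fun t _ => by rw [Int.modEq_iff_dvd, dvd_sub_comm]
  rw [h3]
  have h4 : (filter (fun x => x ≡ t₀ [ZMOD ν]) (Ico (0 : ℤ) ((ν * k : ℕ) : ℤ))).card = k := by
    exact_mod_cast h1
  rw [h4]
  push_cast
  field_simp

/-- local weight -/
def wt (p : ℕ) (c : ℤ) (i : ℕ) : ℚ := if (p : ℤ) ∣ c then 1 else (p : ℚ) ^ i

theorem cast_mu (m : ℕ) (c : ℤ) (d : ℕ) :
    (mu m c d : ℚ) = ∏ p ∈ m.primeFactors, wt p c (d.factorization p) := by
  simp [mu, wt]

theorem local_one {p : ℕ} (hp : p.Prime) (c : ℤ) {α β : ℕ} (h : β ≤ α) :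
    ∑ i ∈ range (α + 1), (if β ≤ i then wt p c i / wt p c β else 0) = loc p (α - β) c := by
  have hp1 : (p : ℚ) - 1 ≠ 0 := sub_ne_zero.2 (by exact_mod_cast hp.one_lt.ne')
  have hp0 : (p : ℚ) ≠ 0 := by exact_mod_cast hp.ne_zero
  induction α, h using Nat.le_induction with
  | base =>
    rw [sum_range_succ, sum_eq_zero fun i hi => if_neg (by simpa using hi)]
    unfold wt loc geo
    split_ifs <;> simp_all
  | succ α h ih =>
    rw [sum_range_succ, ih, if_pos (by omega)]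
    obtain ⟨γ, rfl⟩ := Nat.exists_eq_add_of_le h
    rw [show β + γ + 1 - β = γ + 1 by omega, Nat.add_sub_cancel_left]
    unfold wt loc geo
    split_ifs
    · push_cast; ring
    · field_simp; ring

theorem local_zero {p : ℕ} (hp : p.Prime) (c : ℤ) (α : ℕ) :
    ∑ i ∈ range (α + 1), wt p c i = loc p α c := by
  have := local_one hp c (Nat.zero_le α)
  simpa [wt] using this

theorem sum_pow_min {p : ℕ} (hp : p.Prime) (i k : ℕ) :
    ∑ j ∈ range (i + k + 1), (p : ℚ) ^ j / (p : ℚ) ^ min i j =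
      i + ((p : ℚ) ^ (k + 1) - 1) / (p - 1) := by
  have hp1 : (p : ℚ) - 1 ≠ 0 := sub_ne_zero.2 (by exact_mod_cast hp.one_lt.ne')
  have hp0 : (p : ℚ) ≠ 0 := by exact_mod_cast hp.ne_zero
  induction k with
  | zero =>
    rw [sum_congr rfl (g := fun _ => 1)]
    · simp [hp1]
    · intro j hj
      rw [min_eq_right (by have := mem_range.1 hj; omega), div_self (pow_ne_zero _ hp0)]
  | succ k ih =>
    rw [← add_assoc, sum_range_succ, ih, min_eq_left (by omega)]
    field_simp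
    ring

theorem sum_closed {p : ℚ} (hp1 : p - 1 ≠ 0) (β γ : ℕ) :
    ∑ k ∈ range (γ + 1), p ^ k * (((β + k : ℕ) : ℚ) + (p ^ (γ - k + 1) - 1) / (p - 1)) =
      ((β : ℚ) + 1) * ((p ^ (γ + 1) - 1) / (p - 1)) +
        2 * ((γ : ℚ) * p ^ (γ + 2) - ((γ : ℚ) + 1) * p ^ (γ + 1) + p) / (p - 1) ^ 2 := by
  have h1 : ∀ k ∈ range (γ + 1), p ^ k * (((β + k : ℕ) : ℚ) + (p ^ (γ - k + 1) - 1) / (p - 1)) =
      p ^ k * ((β : ℚ) + k - 1 / (p - 1)) + p ^ (γ + 1) / (p - 1) := by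
    intro k hk
    have : p ^ (γ + 1) = p ^ k * p ^ (γ - k + 1) := by
      rw [← pow_add]; congr 1; have := mem_range.1 hk; omega
    rw [this]; push_cast; field_simp; ring
  rw [sum_congr rfl h1, sum_add_distrib, sum_const, card_range, nsmul_eq_mul]
  have h2 : ∀ N : ℕ, ∑ k ∈ range (N + 1), p ^ k * ((β : ℚ) + k - 1 / (p - 1)) =
      (β - 1 / (p - 1)) * ((p ^ (N + 1) - 1) / (p - 1)) +
        ((N : ℚ) * p ^ (N + 2) - ((N : ℚ) + 1) * p ^ (N + 1) + p) / (p - 1) ^ 2 := by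
    intro N
    induction N with
    | zero => simp; field_simp
    | succ N ih => rw [sum_range_succ, ih]; push_cast; field_simp; ring
  rw [h2]; push_cast; field_simp; ring

theorem local_two {p : ℕ} (hp : p.Prime) (c c' : ℤ) {α β : ℕ} (h : β ≤ α) :
    ∑ i ∈ range (α + 1), ∑ j ∈ range (α + 1),
      (if β ≤ i then wt p c i / wt p c β else 0) * (wt p c' j / wt p (c * c') (min i j)) =
      locPair p α β c c' := by
  have hpp := Nat.prime_iff_prime_int.1 hp
  have hp1 : (p : ℚ) - 1 ≠ 0 := sub_ne_zero.2 (by exact_mod_cast hp.one_lt.ne')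
  have hp0 : (p : ℚ) ≠ 0 := by exact_mod_cast hp.ne_zero
  unfold locPair
  split_ifs with hc
  · have : ∀ k, wt p (c * c') k = 1 := fun k => if_pos (hpp.dvd_mul.2 hc)
    simp only [this, div_one]
    rw [← sum_mul_sum, local_one hp c h, local_zero hp]
  · have h0 : ¬ (p : ℤ) ∣ c * c' := fun h => hc (hpp.dvd_mul.1 h)
    push Not at hc
    simp only [wt, if_neg hc.1, if_neg hc.2, if_neg h0]
    obtain ⟨γ, rfl⟩ := Nat.exists_eq_add_of_le h
    rw [Nat.add_sub_cancel_left, geo, ← sum_closed hp1, add_assoc, sum_range_add,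
      sum_eq_zero fun i hi => by simp [not_le.2 (mem_range.1 hi)], zero_add]
    refine sum_congr rfl fun k hk => ?_
    rw [← mul_sum, if_pos (by omega)]
    have : β + (γ + 1) = (β + k) + (γ - k) + 1 := by have := mem_range.1 hk; omega
    rw [this, sum_pow_min hp, pow_add]
    field_simp

end Pool.Agent.MP_93267c_al

end

-- part MP_93267c_al.Count
section

/-!
Counting subgroups and permuting pairs.
-/

open Finset
open scoped Pointwise

namespace Pool.Agent.MP_93267c_al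

theorem card_eq_sum {ι α : Type} (s : Finset ι) (f : ι → α) (hinj : Set.InjOn f s)
    (hsurj : ∀ x, ∃ i ∈ s, f i = x) (P : α → Prop) [DecidablePred P] :
    (Nat.card {x // P x} : ℚ) = ∑ i ∈ s, if P (f i) then 1 else 0 := by
  classical
  rw [sum_boole]
  congr 1
  rw [← card_image_of_injOn (f := f) (hinj.mono (coe_subset.2 (filter_subset _ _)))]
  refine Nat.subtype_card _ fun x => ?_
  simp only [mem_image, mem_filter]
  constructor
  · rintro ⟨i, ⟨-, h⟩, rfl⟩; exact h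
  · intro h
    obtain ⟨i, hi, rfl⟩ := hsurj x
    exact ⟨i, ⟨hi, h⟩, rfl⟩

/-- parameter set for subgroups -/
noncomputable def idx (m n : ℕ) (r : ℤ) : Finset (Σ _ : ℕ × ℕ, ℤ) :=
  (n.divisors ×ˢ m.divisors).sigma fun p => Ico (0 : ℤ) (mu m (1 - r ^ p.1) p.2)

theorem sum_idx (m n : ℕ) (r : ℤ) (F : ℕ → ℕ → ℤ → ℚ) :
    ∑ x ∈ idx m n r, F x.1.2 x.1.1 x.2 =
      ∑ e ∈ n.divisors, ∑ d ∈ m.divisors, ∑ t ∈ Ico (0 : ℤ) (mu m (1 - r ^ e) d), F d e t := by
  rw [idx, sum_sigma, sum_product]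

theorem dvd_sub_flip (p : ℕ) (x : ℤ) : (p : ℤ) ∣ 1 - x ↔ (p : ℤ) ∣ x - 1 := dvd_sub_comm

theorem loc_flip (p k : ℕ) (x : ℤ) : loc p k (1 - x) = loc p k (x - 1) := by
  simp only [loc, dvd_sub_flip]

theorem locPair_flip (p α β : ℕ) (x y : ℤ) :
    locPair p α β (1 - x) (1 - y) = locPair p α β (x - 1) (y - 1) := by
  simp only [locPair, dvd_sub_flip, loc_flip]

theorem ind_prod {m m₁ d : ℕ} (hm : m ≠ 0) (h₁ : m₁ ∣ m) (hd : d ∣ m) (c : ℤ) :
    (if m₁ ∣ d then (mu m c d : ℚ) / mu m c m₁ else 0) =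
      ∏ p ∈ m.primeFactors, if m₁.factorization p ≤ d.factorization p then
        wt p c (d.factorization p) / wt p c (m₁.factorization p) else 0 := by
  have hd0 := ne_zero_of_dvd_ne_zero hm hd
  have h10 := ne_zero_of_dvd_ne_zero hm h₁
  split_ifs with h
  · rw [cast_mu, cast_mu, ← prod_div_distrib]
    exact prod_congr rfl fun p _ =>
      (if_pos ((Nat.factorization_le_iff_dvd h10 hd0).2 h p)).symm
  · rw [← Nat.factorization_le_iff_dvd h10 hd0, Finsupp.le_def] at h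
    push Not at h
    obtain ⟨p, hp⟩ := h
    have : p ∈ m.primeFactors := Nat.primeFactors_mono h₁ hm (by
      rw [← Nat.support_factorization, Finsupp.mem_support_iff]; omega)
    exact (prod_eq_zero this (if_neg (by omega))).symm

variable {G : Type} [Group G] {m n : ℕ} {r : ℤ} {a b : G}

namespace Setup

variable (S : Setup m n r a b)
include S

theorem uni {e : ℕ} (he : e ∣ n) : Uni m (1 - r ^ e) := uni_one_sub_pow S.cop S.hr he

theorem inj : Set.InjOn (fun x : (Σ _ : ℕ × ℕ, ℤ) => KK r a b x.1.2 x.1.1 x.2) (idx m n r) := by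
  rintro ⟨⟨e, d⟩, t⟩ hx ⟨⟨e', d'⟩, t'⟩ hy hxy
  simp only [idx, mem_coe, mem_sigma, mem_product, Nat.mem_divisors, mem_Ico] at hx hy hxy
  obtain ⟨h1, h2, h3⟩ := (S.KK_le_iff hy.1.2.1 hy.1.1.1).1 hxy.le
  obtain ⟨h1', h2', -⟩ := (S.KK_le_iff hx.1.2.1 hx.1.1.1).1 hxy.ge
  obtain rfl := Nat.dvd_antisymm h1 h1'
  obtain rfl := Nat.dvd_antisymm h2 h2'
  rw [dvd_iff_mu S.hm.ne' hx.1.2.1 (S.uni hx.1.1.1)] at h3
  have : t - t' = 0 := Int.eq_zero_of_abs_lt_dvd h3 (abs_lt.2 ⟨by linarith [hx.2.1, hy.2.2],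
    by linarith [hx.2.2, hy.2.1]⟩)
  obtain rfl : t = t' := by linarith
  rfl

theorem surj (M : Subgroup G) :
    ∃ x ∈ idx m n r, (fun x : (Σ _ : ℕ × ℕ, ℤ) => KK r a b x.1.2 x.1.1 x.2) x = M := by
  obtain ⟨d, e, t, hd, he, rfl⟩ := S.exists_eq_KK M
  have hpos : (0 : ℤ) < mu m (1 - r ^ e) d := by exact_mod_cast mu_pos m _ d
  refine ⟨⟨(e, d), t % mu m (1 - r ^ e) d⟩, ?_, ?_⟩
  · simp only [idx, mem_sigma, mem_product, Nat.mem_divisors, mem_Ico]
    exact ⟨⟨⟨he, S.hn.ne'⟩, hd, S.hm.ne'⟩, Int.emod_nonneg _ hpos.ne', Int.emod_lt_of_pos _ hpos⟩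
  · have h1 : (mu m (1 - r ^ e) d : ℤ) ∣ t - t % mu m (1 - r ^ e) d := Int.dvd_self_sub_emod
    apply le_antisymm
    · exact (S.KK_le_iff hd he).2 ⟨dvd_rfl, dvd_rfl,
        (dvd_iff_mu S.hm.ne' hd (S.uni he) _).2 (dvd_sub_comm.1 h1)⟩
    · exact (S.KK_le_iff hd he).2 ⟨dvd_rfl, dvd_rfl, (dvd_iff_mu S.hm.ne' hd (S.uni he) _).2 h1⟩

open Classical in
theorem sum_le_KK {m₁ n₁ d e : ℕ} (h₁ : m₁ ∣ m) (hn₁ : n₁ ∣ n) (hd : d ∣ m) (he : e ∣ n) (t₀ : ℤ) :
    ∑ t ∈ Ico (0 : ℤ) (mu m (1 - r ^ e) d),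
      (if KK r a b d e t ≤ KK r a b m₁ n₁ t₀ then (1 : ℚ) else 0) =
    if n₁ ∣ e then ∏ p ∈ m.primeFactors, if m₁.factorization p ≤ d.factorization p then
        wt p (1 - r ^ e) (d.factorization p) / wt p (1 - r ^ e) (m₁.factorization p) else 0
      else 0 := by
  rw [← ind_prod S.hm.ne' h₁ hd]
  simp only [S.KK_le_iff h₁ hn₁, dvd_iff_mu S.hm.ne' h₁ (S.uni he)]
  by_cases h2 : n₁ ∣ e
  · by_cases h3 : m₁ ∣ d
    · simp only [h2, h3, true_and, if_true]
      refine count_mod (mu_pos ..) ?_ t₀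
      rw [← Int.natCast_dvd_natCast, ← dvd_iff_mu S.hm.ne' h₁ (S.uni he)]
      exact (Int.natCast_dvd_natCast.2 h3).trans ((dvd_iff_mu S.hm.ne' hd (S.uni he) _).2 dvd_rfl)
    · simp [h3]
  · simp [h2]

open Classical in
theorem sum_perm {d e d' e' : ℕ} (hd : d ∣ m) (he : e ∣ n) (hd' : d' ∣ m) (he' : e' ∣ n) (t : ℤ) :
    ∑ t' ∈ Ico (0 : ℤ) (mu m (1 - r ^ e') d'),
      (if (KK r a b d e t : Set G) * (KK r a b d' e' t' : Set G) =
        (KK r a b d' e' t' : Set G) * (KK r a b d e t : Set G) then (1 : ℚ) else 0) =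
    ∏ p ∈ m.primeFactors, wt p (1 - r ^ e') (d'.factorization p) /
      wt p ((1 - r ^ e) * (1 - r ^ e')) (min (d.factorization p) (d'.factorization p)) := by
  have hg : Nat.gcd d d' ∣ m := (Nat.gcd_dvd_left _ _).trans hd
  have hU := (S.uni he).mul (S.uni he')
  simp only [S.perm_iff hd he hd' he', dvd_iff_mu S.hm.ne' hg hU, dvd_sub_comm (b := t)]
  rw [count_mod (mu_pos ..) ?_ t, cast_mu, cast_mu, ← prod_div_distrib,
    Nat.factorization_gcd (ne_zero_of_dvd_ne_zero S.hm.ne' hd) (ne_zero_of_dvd_ne_zero S.hm.ne' hd')]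
  · simp only [Finsupp.inf_apply]
  · rw [← Int.natCast_dvd_natCast, ← dvd_iff_mu S.hm.ne' hg hU]
    have := ((Int.natCast_dvd_natCast.2 (Nat.gcd_dvd_right d d')).trans
      ((dvd_iff_mu S.hm.ne' hd' (S.uni he') _).2 dvd_rfl)).mul_right (1 - r ^ e)
    exact dvd_of_dvd_eq this (by ring)

theorem card_le {m₁ n₁ : ℕ} (h₁ : m₁ ∣ m) (hn₁ : n₁ ∣ n) (t₀ : ℤ) :
    (Nat.card {K : Subgroup G // K ≤ KK r a b m₁ n₁ t₀} : ℚ) =
      ∑ e ∈ n.divisors with n₁ ∣ e, ∏ p ∈ m.primeFactors,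
        loc p (m.factorization p - m₁.factorization p) (r ^ e - 1) := by
  classical
  rw [card_eq_sum _ _ S.inj S.surj, sum_idx m n r
    (fun d e t => if KK r a b d e t ≤ KK r a b m₁ n₁ t₀ then (1 : ℚ) else 0), sum_filter]
  refine sum_congr rfl fun e he => ?_
  rw [sum_congr rfl fun d hd =>
    S.sum_le_KK h₁ hn₁ (Nat.dvd_of_mem_divisors hd) (Nat.dvd_of_mem_divisors he) t₀]
  split_ifs
  · rw [sum_divisors_prod S.hm.ne' fun p i => if m₁.factorization p ≤ i then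
        wt p (1 - r ^ e) i / wt p (1 - r ^ e) (m₁.factorization p) else 0]
    refine prod_congr rfl fun p hp => ?_
    rw [local_one (Nat.prime_of_mem_primeFactors hp) _ ((Nat.factorization_le_iff_dvd
      (ne_zero_of_dvd_ne_zero S.hm.ne' h₁) S.hm.ne').2 h₁ p), loc_flip]
  · simp

theorem card_all :
    (Nat.card (Subgroup G) : ℚ) =
      ∑ e ∈ n.divisors, ∏ p ∈ m.primeFactors, loc p (m.factorization p) (r ^ e - 1) := by
  have h1 := S.card_le (one_dvd m) (one_dvd n) 0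
  have h2 : ∀ K : Subgroup G, K ≤ KK r a b 1 1 0 := fun K g _ => by
    obtain ⟨j, i, rfl⟩ := S.gen g
    exact S.mem_KK_of (one_dvd _) (by simp)
  rw [Nat.card_congr (Equiv.subtypeUnivEquiv h2)] at h1
  simpa using h1

theorem card_pairs {m₁ n₁ : ℕ} (h₁ : m₁ ∣ m) (hn₁ : n₁ ∣ n) (t₀ : ℤ) :
    (Nat.card {p : Subgroup G × Subgroup G // p.1 ≤ KK r a b m₁ n₁ t₀ ∧
      (p.1 : Set G) * (p.2 : Set G) = (p.2 : Set G) * (p.1 : Set G)} : ℚ) =
      ∑ e ∈ n.divisors with n₁ ∣ e, ∑ e' ∈ n.divisors, ∏ p ∈ m.primeFactors,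
        locPair p (m.factorization p) (m₁.factorization p) (r ^ e - 1) (r ^ e' - 1) := by
  classical
  let f := fun x : (Σ _ : ℕ × ℕ, ℤ) => KK r a b x.1.2 x.1.1 x.2
  rw [card_eq_sum (idx m n r ×ˢ idx m n r) (Prod.map f f)
    (fun x hx y hy hxy => Prod.ext
      (S.inj (mem_product.1 hx).1 (mem_product.1 hy).1 (congrArg Prod.fst hxy))
      (S.inj (mem_product.1 hx).2 (mem_product.1 hy).2 (congrArg Prod.snd hxy)))
    (fun ⟨M, M'⟩ => by
      obtain ⟨x, hx, rfl⟩ := S.surj M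
      obtain ⟨y, hy, rfl⟩ := S.surj M'
      exact ⟨(x, y), mem_product.2 ⟨hx, hy⟩, rfl⟩), sum_product, sum_filter]
  have h1 : ∀ x ∈ idx m n r, ∑ y ∈ idx m n r,
      (if (Prod.map f f (x, y)).1 ≤ KK r a b m₁ n₁ t₀ ∧
        ((Prod.map f f (x, y)).1 : Set G) * ((Prod.map f f (x, y)).2 : Set G) =
        ((Prod.map f f (x, y)).2 : Set G) * ((Prod.map f f (x, y)).1 : Set G) then (1 : ℚ) else 0) =
      (if KK r a b x.1.2 x.1.1 x.2 ≤ KK r a b m₁ n₁ t₀ then (1 : ℚ) else 0) *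
        ∑ e' ∈ n.divisors, ∑ d' ∈ m.divisors, ∏ p ∈ m.primeFactors,
          wt p (1 - r ^ e') (d'.factorization p) / wt p ((1 - r ^ x.1.1) * (1 - r ^ e'))
            (min (x.1.2.factorization p) (d'.factorization p)) := by
    rintro ⟨⟨e, d⟩, t⟩ hx
    simp only [idx, mem_sigma, mem_product, Nat.mem_divisors] at hx
    simp only [Prod.map, f]
    by_cases hle : KK r a b d e t ≤ KK r a b m₁ n₁ t₀
    · simp only [hle, true_and, if_true, one_mul]
      rw [sum_idx m n r (fun d' e' t' => if (KK r a b d e t : Set G) * (KK r a b d' e' t' : Set G) =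
        (KK r a b d' e' t' : Set G) * (KK r a b d e t : Set G) then (1 : ℚ) else 0)]
      exact sum_congr rfl fun e' he' => sum_congr rfl fun d' hd' =>
        S.sum_perm hx.1.2.1 hx.1.1.1 (Nat.dvd_of_mem_divisors hd') (Nat.dvd_of_mem_divisors he') t
    · simp [hle]
  rw [sum_congr rfl h1, sum_idx m n r (fun d e t =>
    (if KK r a b d e t ≤ KK r a b m₁ n₁ t₀ then (1 : ℚ) else 0) *
        ∑ e' ∈ n.divisors, ∑ d' ∈ m.divisors, ∏ p ∈ m.primeFactors,
          wt p (1 - r ^ e') (d'.factorization p) / wt p ((1 - r ^ e) * (1 - r ^ e'))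
            (min (d.factorization p) (d'.factorization p)))]
  refine sum_congr rfl fun e he => ?_
  rw [sum_congr rfl fun d hd => by
    rw [← sum_mul, S.sum_le_KK h₁ hn₁ (Nat.dvd_of_mem_divisors hd) (Nat.dvd_of_mem_divisors he) t₀]]
  split_ifs
  · simp only [mul_sum]
    rw [sum_comm]
    refine sum_congr rfl fun e' _ => ?_
    simp only [← prod_mul_distrib]
    rw [sum_congr rfl fun d _ => sum_divisors_prod S.hm.ne' fun p j =>
      (if m₁.factorization p ≤ d.factorization p then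
        wt p (1 - r ^ e) (d.factorization p) / wt p (1 - r ^ e) (m₁.factorization p) else 0) *
        (wt p (1 - r ^ e') j / wt p ((1 - r ^ e) * (1 - r ^ e')) (min (d.factorization p) j)),
      sum_divisors_prod S.hm.ne' fun p i => ∑ j ∈ range (m.factorization p + 1),
      (if m₁.factorization p ≤ i then
        wt p (1 - r ^ e) i / wt p (1 - r ^ e) (m₁.factorization p) else 0) *
        (wt p (1 - r ^ e') j / wt p ((1 - r ^ e) * (1 - r ^ e')) (min i j))]
    refine prod_congr rfl fun p hp => ?_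
    rw [local_two (Nat.prime_of_mem_primeFactors hp) _ _ ((Nat.factorization_le_iff_dvd
      (ne_zero_of_dvd_ne_zero S.hm.ne' h₁) S.hm.ne').2 h₁ p), locPair_flip]
  · simp

end Setup

end Pool.Agent.MP_93267c_al

end

-- part MP_93267c_al.Main
section

/-!
The presented group `ZM(m,n,r)` and the final formula.
-/

open Finset
open scoped Pointwise

namespace Pool.Agent.MP_93267c_al

theorem setup_zm {m n : ℕ} {r : ℤ} (hm : 1 ≤ m) (hn : 1 ≤ n) (cop : Nat.Coprime m n)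
    (hr : r ^ n ≡ 1 [ZMOD m]) :
    Setup m n r (PresentedGroup.of true : PresentedGroup (rels m n r)) (PresentedGroup.of false) := by
  have hr' : (m : ℤ) ∣ r ^ n - 1 := (Int.modEq_iff_dvd.1 hr.symm)
  have ha : (PresentedGroup.of true : PresentedGroup (rels m n r)) ^ m = 1 := by
    have := PresentedGroup.one_of_mem (rels := rels m n r) (x := FreeGroup.of true ^ m) (by simp [rels])
    rwa [map_pow] at this
  have hb : (PresentedGroup.of false : PresentedGroup (rels m n r)) ^ n = 1 := by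
    have := PresentedGroup.one_of_mem (rels := rels m n r) (x := FreeGroup.of false ^ n) (by simp [rels])
    rwa [map_pow] at this
  have hc : (PresentedGroup.of false : PresentedGroup (rels m n r))⁻¹ * PresentedGroup.of true *
      PresentedGroup.of false = PresentedGroup.of true ^ r := by
    have := PresentedGroup.one_of_mem (rels := rels m n r)
      (x := (FreeGroup.of false)⁻¹ * FreeGroup.of true * FreeGroup.of false *
        (FreeGroup.of true ^ r)⁻¹) (by simp [rels])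
    rwa [map_mul, map_mul, map_mul, map_inv, map_inv, map_zpow, mul_inv_eq_one] at this
  refine ⟨hm, hn, cop, hr', fun i => ⟨fun hi => ?_, ?_⟩, hb, hc, ?_, ?_⟩
  · obtain ⟨k, hk⟩ : ∃ k, n = k + 1 := ⟨n - 1, by omega⟩
    have hu : (r : ZMod m) ^ n = 1 := by
      have := (ZMod.intCast_eq_intCast_iff _ _ m).2 hr
      simpa using this
    let u : (ZMod m)ˣ := Units.ofPowEqOne (r : ZMod m) n hu (by omega)
    have hun : u ^ n = 1 := Units.pow_ofPowEqOne ..
    let A : Equiv.Perm (ZMod m) := Equiv.addRight 1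
    let B : Equiv.Perm (ZMod m) := (Units.mulLeft u)⁻¹
    have hA : ∀ (i : ℤ) (x : ZMod m), (A ^ i) x = x + i := by
      intro i x
      simp [A]
    have hB : ∀ (j : ℕ) (x : ZMod m), ((Units.mulLeft u : Equiv.Perm (ZMod m)) ^ j) x =
        (u ^ j : (ZMod m)ˣ) * x := by
      intro j
      induction j with
      | zero => simp
      | succ j ih => intro x; rw [pow_succ, Equiv.Perm.mul_apply, ih, pow_succ]; simp [mul_assoc]
    let f : Bool → Equiv.Perm (ZMod m) := fun x => if x then A else B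
    have hf : ∀ w ∈ rels m n r, FreeGroup.lift f w = 1 := by
      rintro w (rfl | rfl | rfl)
      · ext x
        have := hA m x
        simpa [f] using this
      · have : (Units.mulLeft u : Equiv.Perm (ZMod m)) ^ n = 1 := by
          ext x; rw [hB, hun]; simp
        simp [f, B, this]
      · have : B⁻¹ * A * B = A ^ r := by
          ext x
          rw [hA]
          have hur : (u : ZMod m) = r := rfl
          simp [A, B, mul_add, ← hur]
        simp [f, this]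
    have h1 := congrArg (PresentedGroup.toGroup hf) hi
    rw [map_zpow, PresentedGroup.toGroup.of, map_one] at h1
    have h2 := hA i 0
    simp only [f, if_true] at h1
    rw [h1] at h2
    exact (ZMod.intCast_zmod_eq_zero_iff_dvd i m).1 (by simpa using h2.symm)
  · rintro ⟨c, rfl⟩
    rw [zpow_mul, zpow_natCast, ha, one_zpow]
  · intro j j' i i' h
    let f : Bool → Multiplicative (ZMod n) := fun x => if x then 1 else Multiplicative.ofAdd 1
    have hf : ∀ w ∈ rels m n r, FreeGroup.lift f w = 1 := by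
      rintro w (rfl | rfl | rfl)
      · simp [f]
      · simp [f, ← ofAdd_nsmul]
      · simp [f]
    have h1 := congrArg (PresentedGroup.toGroup hf) h
    simp only [map_mul, map_pow, map_zpow, PresentedGroup.toGroup.of, f, if_true, one_zpow,
      mul_one, Bool.false_eq_true, if_false, ← ofAdd_nsmul, nsmul_eq_mul] at h1
    exact (ZMod.natCast_eq_natCast_iff _ _ _).1 (Multiplicative.ofAdd.injective h1)
  · intro g
    set a : PresentedGroup (rels m n r) := PresentedGroup.of true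
    set b : PresentedGroup (rels m n r) := PresentedGroup.of false
    have mul_nf : ∀ (j j' : ℕ) (i i' : ℤ),
        b ^ j * a ^ i * (b ^ j' * a ^ i') = b ^ (j + j') * a ^ (i * r ^ j' + i') := by
      intro j j' i i'
      rw [mul_assoc, ← mul_assoc (a ^ i), comm_aux hc, pow_add, zpow_add]; group
    let M : Subgroup (PresentedGroup (rels m n r)) :=
      { carrier := {g | ∃ j : ℕ, ∃ i : ℤ, g = b ^ j * a ^ i}
        one_mem' := ⟨0, 0, by simp⟩
        mul_mem' := by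
          rintro _ _ ⟨j, i, rfl⟩ ⟨j', i', rfl⟩
          exact ⟨_, _, mul_nf ..⟩
        inv_mem' := by
          rintro _ ⟨j, i, rfl⟩
          obtain ⟨k, hk⟩ : ∃ k, n = k + 1 := ⟨n - 1, by omega⟩
          refine ⟨k * j, -(i * r ^ (k * j)), ?_⟩
          rw [inv_eq_iff_mul_eq_one, mul_nf, show j + k * j = n * j by rw [hk]; ring, pow_mul, hb]
          simp }
    refine PresentedGroup.generated_by (rels m n r) M (fun x => ?_) g
    cases x
    · exact ⟨1, 0, by simp [b]⟩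
    · exact ⟨0, 1, by simp [a]⟩

theorem closure_eq_KK {G : Type} [Group G] {m n : ℕ} {r : ℤ} {a b : G} (S : Setup m n r a b)
    {m₁ n₁ s : ℕ} (hn₁ : n₁ ∣ n) {t : ℤ} (ht : (m₁ : ℤ) ∣ s - t * (1 - r ^ n₁)) :
    Subgroup.closure (⋃ k ∈ Set.Icc 1 (n / n₁),
      {g | ∃ y ∈ Subgroup.zpowers (a ^ m₁), g = (b ^ n₁ * a ^ s) ^ k * y}) = KK r a b m₁ n₁ t := by
  have hpos : 1 ≤ n / n₁ := Nat.div_pos (Nat.le_of_dvd S.hn hn₁) (Nat.pos_of_dvd_of_pos hn₁ S.hn)
  apply le_antisymm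
  · rw [Subgroup.closure_le]
    intro g hg
    simp only [Set.mem_iUnion] at hg
    obtain ⟨k, -, y, ⟨c, rfl⟩, rfl⟩ := hg
    refine mul_mem (pow_mem ?_ _) (zpow_mem ?_ _)
    · rw [← zpow_natCast a]; exact S.mem_KK_of dvd_rfl ht
    · exact Subgroup.subset_closure (by simp)
  · have key : ∀ y ∈ Subgroup.zpowers (a ^ m₁), b ^ n₁ * a ^ s * y ∈
        Subgroup.closure (⋃ k ∈ Set.Icc 1 (n / n₁),
          {g | ∃ y ∈ Subgroup.zpowers (a ^ m₁), g = (b ^ n₁ * a ^ s) ^ k * y}) := by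
      intro y hy
      apply Subgroup.subset_closure
      simp only [Set.mem_iUnion]
      exact ⟨1, ⟨le_rfl, hpos⟩, y, hy, by simp⟩
    rw [KK, Subgroup.closure_le]
    rintro _ (rfl | rfl)
    · have := mul_mem (inv_mem (key 1 (one_mem _))) (key _ (Subgroup.mem_zpowers _))
      rw [mul_one, inv_mul_cancel_left] at this
      rw [zpow_natCast]
      exact this
    · obtain ⟨c, hc⟩ := ht
      have := key _ (Subgroup.zpow_mem_zpowers (a ^ m₁) (-c))
      rw [show t * (1 - r ^ n₁) = s + m₁ * -c by linarith, zpow_add, zpow_mul, zpow_natCast,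
        zpow_natCast, ← mul_assoc]
      exact this

theorem sd_formula (m n : ℕ) (r : ℤ) (hm : 1 ≤ m) (hn : 1 ≤ n) (cop : Nat.Coprime m n)
    (hr : r ^ n ≡ 1 [ZMOD m]) (m₁ n₁ s : ℕ) (h₁ : m₁ ∣ m) (hn₁ : n₁ ∣ n)
    (hs : (m₁ : ℤ) ∣ s * ∑ i ∈ range (n / n₁), r ^ (n₁ * i)) :
    sd (subH m n r m₁ n₁ s) =
      (∑ e ∈ n.divisors with n₁ ∣ e, ∑ e' ∈ n.divisors, ∏ p ∈ m.primeFactors,
        locPair p (m.factorization p) (m₁.factorization p) (r ^ e - 1) (r ^ e' - 1)) /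
      ((∑ e ∈ n.divisors with n₁ ∣ e, ∏ p ∈ m.primeFactors,
          loc p (m.factorization p - m₁.factorization p) (r ^ e - 1)) *
        ∑ e ∈ n.divisors, ∏ p ∈ m.primeFactors, loc p (m.factorization p) (r ^ e - 1)) := by
  have S := setup_zm hm hn cop hr
  obtain ⟨t, ht⟩ := S.exists_t h₁ hn₁ hs
  rw [subH, closure_eq_KK S hn₁ ht, sd, S.card_pairs h₁ hn₁, S.card_le h₁ hn₁, S.card_all]

end Pool.Agent.MP_93267c_al

end
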